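import Pool.Agent.R83.WSat

set_option autoImplicit false

/-!
# Weak saturation numbers of unbalanced complete bipartite graphs just above `s + t` vertices

The question is whether `wsat(s + t + j, K_{s,t}) = C(s + t + j, 2) - j (s + t) - 2 t + O(j)` for `2 < s ≤ t` and
`2 ≤ j ≤ t - 3`. The complement of a weakly saturated graph is independent in a linear matroid of rank at most
`(j + 1) (s + t + j)`, so `wsat(s + t + j, K_{s,t}) ≥ C(s + t + j, 2) - (j + 1) (s + t + j)`. For `j = 2` and fixed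
`s` this is larger than the conjectured value by `t - O(1)`.
-/

namespace Pool.Agent.Results.MP_6ac647_co.UnbalancedBipartite

open Pool.Agent.R83.WSat

lemma hasCopy_iso {W W' V : Type} {F : SimpleGraph W} {F' : SimpleGraph W'} (e : F ≃g F') (D : Set (Sym2 V))
    (f : Sym2 V) (h : HasCopyUsing F D f) : HasCopyUsing F' D f := by
  obtain ⟨φ, h1, g, hg, hgf⟩ := h
  have hmap : ∀ g' : Sym2 W', g'.map (e.symm.toEquiv.toEmbedding.trans φ) = (g'.map e.symm).map φ := by
    intro g'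
    rw [Sym2.map_map]
    rfl
  have hmem : ∀ g' ∈ F'.edgeSet, g'.map e.symm ∈ F.edgeSet := by
    intro g' hg'
    induction g' using Sym2.ind with
    | _ x y => exact e.symm.map_adj_iff.2 hg'
  refine ⟨e.symm.toEquiv.toEmbedding.trans φ, ?_, g.map e, ?_, ?_⟩
  · intro g' hg'
    rw [hmap]
    exact h1 _ (hmem g' hg')
  · induction g using Sym2.ind with
    | _ x y => exact e.map_adj_iff.2 hg
  · have : (e.symm : W' → W) ∘ (e : W → W') = id := by
      funext x
      simp
    have h5 : Sym2.map e.symm (Sym2.map e g) = g := by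
      rw [Sym2.map_map, this, Sym2.map_id]
      rfl
    rw [hmap, h5]
    exact hgf

lemma wsat_iso {W W' : Type} {F : SimpleGraph W} {F' : SimpleGraph W'} (e : F ≃g F') (n : ℕ) :
    wsat n F = wsat n F' := by
  have key : ∀ {W W' : Type} {F : SimpleGraph W} {F' : SimpleGraph W'} (_ : F ≃g F')
      (G : SimpleGraph (Fin n)), IsWeaklySat F G → IsWeaklySat F' G := by
    intro W W' F F' e G h
    refine ⟨fun hc => h.1 (SimpleGraph.IsContained.trans ⟨e.toCopy⟩ hc), ?_⟩
    obtain ⟨m, ee, h1, h2, h3⟩ := h.2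
    exact ⟨m, ee, h1, h2, fun i => hasCopy_iso e _ _ (h3 i)⟩
  unfold wsat
  congr 1
  ext k
  constructor
  · rintro ⟨G, h1, h2⟩
    exact ⟨G, key e G h1, h2⟩
  · rintro ⟨G, h1, h2⟩
    exact ⟨G, key e.symm G h1, h2⟩

/-- Interchanging the two sides. -/
def swapIso (s t : ℕ) : completeBipartiteGraph (Fin s) (Fin t) ≃g completeBipartiteGraph (Fin t) (Fin s) where
  toEquiv := Equiv.sumComm _ _
  map_rel_iff' := by
    rintro (a | a) (b | b) <;> simp

/-- The conjectured value, `M(s, t, j) = C(s + t + j, 2) - j (s + t) - 2 t`. -/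
noncomputable def MM (s t j : ℕ) : ℝ := ((s + t + j).choose 2 : ℝ) - j * (s + t) - 2 * t

/-- For all `s, t ≥ 1` and `j ≥ 0`, with `n = s + t + j`, the number `wsat(n, K_{s,t})` is between
`C(n, 2) - (j + 1) n` and `C(n, 2) - (j + 1) t`. In particular there is no constant `C` with
`|wsat(s + t + j, K_{s,t}) - M(s, t, j)| ≤ C j` for all `2 < s ≤ t` and `2 ≤ j ≤ t - 3`, nor for all
`2 < t ≤ s` and `2 ≤ j ≤ t - 3`. -/
theorem result :
    (∀ s t j : ℕ, 1 ≤ s → 1 ≤ t →
      (s + t + j).choose 2 ≤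
        wsat (s + t + j) (completeBipartiteGraph (Fin s) (Fin t)) + (j + 1) * (s + t + j) ∧
      wsat (s + t + j) (completeBipartiteGraph (Fin s) (Fin t)) + (j + 1) * t ≤ (s + t + j).choose 2) ∧
    (¬ ∃ C : ℝ, ∀ s t j : ℕ, 2 < s → s ≤ t → 2 ≤ j → j + 3 ≤ t →
      |(wsat (s + t + j) (completeBipartiteGraph (Fin s) (Fin t)) : ℝ) - MM s t j| ≤ C * j) ∧
    (¬ ∃ C : ℝ, ∀ s t j : ℕ, 2 < t → t ≤ s → 2 ≤ j → j + 3 ≤ t →
      |(wsat (s + t + j) (completeBipartiteGraph (Fin s) (Fin t)) : ℝ) - MM s t j| ≤ C * j) := by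
  refine ⟨fun s t j hs ht => wsat_bounds s t j hs ht, ?_, ?_⟩
  · rintro ⟨C, hC⟩
    obtain ⟨N, hN⟩ := exists_nat_gt (2 * C)
    have h1 := hC 3 (N + 10) 2 (by norm_num) (by omega) le_rfl (by omega)
    have h2 := (wsat_bounds 3 (N + 10) 2 (by norm_num) (by omega)).1
    have h3 : (((3 + (N + 10) + 2).choose 2 : ℕ) : ℝ) ≤
        ((wsat (3 + (N + 10) + 2) (completeBipartiteGraph (Fin 3) (Fin (N + 10))) +
          (2 + 1) * (3 + (N + 10) + 2) : ℕ) : ℝ) := by exact_mod_cast h2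
    have h4 := (abs_le.1 h1).2
    unfold MM at h4
    push_cast at h3 h4
    linarith
  · rintro ⟨C, hC⟩
    obtain ⟨N, hN⟩ := exists_nat_gt (2 * C)
    have h1 := hC (N + 30) 5 2 (by norm_num) (by omega) le_rfl (by omega)
    have h2 := (wsat_bounds 5 (N + 30) 2 (by norm_num) (by omega)).2
    rw [wsat_iso (swapIso 5 (N + 30)), add_comm 5 (N + 30)] at h2
    have h3 : ((wsat (N + 30 + 5 + 2) (completeBipartiteGraph (Fin (N + 30)) (Fin 5)) +
        (2 + 1) * (N + 30) : ℕ) : ℝ) ≤ (((N + 30 + 5 + 2).choose 2 : ℕ) : ℝ) := by exact_mod_cast h2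
    have h4 := (abs_le.1 h1).1
    unfold MM at h4
    push_cast at h3 h4
    linarith

end Pool.Agent.Results.MP_6ac647_co.UnbalancedBipartite
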